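import Pool.Agent.Y803.GR.BrnB

/-!
MP_331e4f_al: Kaplansky's equivalence holds for the free Burnside groups `B(r, p^l)`, `r ≥ 2`, if
`B(m, p^k)` is infinite for some `m` and `k` with `m + 1 ≤ p^c` and `k + 1 + c ≤ l`, and for all groups
with such a section.

Idea.  The restricted wreath product `W` of `Z/p` and `B(m, p^k)` has `m + 1` generators and exponent
`p^(k+1)`; it is a section of a `2`-generator subgroup of the wreath product of `W` and `Z/p^c`,
which has exponent dividing `p^(k+1+c)`.  The augmentation ideal of `F[W]` does not lie in the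
Jacobson radical (starting file H202Kap).
-/

set_option autoImplicit false

namespace Pool.Agent.Results.MP_331e4f_al.BurnsideGroups

open Pool.Agent.Y803.Brn Pool.Agent.Y803.GR

universe v

/-- Let `p` be a prime, let the free Burnside group `B(m, p^k)` be infinite, and let
`m + 1 ≤ p^c`, `r ≥ 2` and `l ≥ k + 1 + c`. Let `M` be a group with a section `B(r, p^l)`
(`f : S → B(r, p^l)` onto, `S ≤ M`). Then for every field `F` both sides of Kaplansky's
equivalence for `F` and `M` are false: the augmentation ideal of `F[M]` does not lie in the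
Jacobson radical, and `M` is not locally finite. -/
theorem result (F : Type) [Field F] (M : Type v) [Group M] (p : ℕ) [Fact p.Prime]
    (m k c r l : ℕ) (hinf : Infinite (Burnside m (p ^ k))) (hc : m + 1 ≤ p ^ c) (hr : 2 ≤ r)
    (hl : k + 1 + c ≤ l) (S : Subgroup M) (f : S →* Burnside r (p ^ l))
    (hf : Function.Surjective f) :
    ¬ Ideal.span (Set.range (fun g : M => MonoidAlgebra.of F M g - 1)) ≤
      Ideal.jacobson (⊥ : Ideal (MonoidAlgebra F M)) ∧
    ¬ ∀ H : Subgroup M, H.FG → Finite H := by
  obtain ⟨h1, h2⟩ := main F p m k c r l hinf hc hr hl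
  refine ⟨fun h => h1 (augLeJac_section ⟨S, f, hf⟩ fun x hx => h (mem_span_of_aug x hx)), ?_⟩
  exact not_locFin_of_section (Set.finite_range _) (gen_B r (p ^ l)) S f hf

end Pool.Agent.Results.MP_331e4f_al.BurnsideGroups
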