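import Pool.Agent.Y803.GR.Kap

/-!
MP_331e4f_al: if the augmentation ideal of `k[G]` is the radical then of two commuting subgroups with
trivial intersection one has a nil augmentation ideal.
-/

set_option autoImplicit false

namespace Pool.Agent.Results.MP_331e4f_al.CommutingSubgroups

open Pool.Agent.Y803.GR

universe u v

/-- Let `G` be a group and `k` a field such that the Jacobson radical of `k[G]` is the augmentation
ideal, and let `H₁`, `H₂` be subgroups of `G` which commute elementwise and meet in `1`. Then all
elements of `k[G]` of augmentation `0` which are supported on `H₁` are nilpotent, or all elements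
of `k[G]` of augmentation `0` which are supported on `H₂` are nilpotent. -/
theorem result (k : Type u) [Field k] (G : Type v) [Group G]
    (hG : Ideal.jacobson (⊥ : Ideal (MonoidAlgebra k G)) =
      Ideal.span (Set.range (fun g : G => MonoidAlgebra.of k G g - 1)))
    (H₁ H₂ : Subgroup G) (hc : ∀ a ∈ H₁, ∀ b ∈ H₂, a * b = b * a) (hd : H₁ ⊓ H₂ = ⊥) :
    (∀ x : MonoidAlgebra k H₁, x.coeff.sum (fun _ r => r) = 0 → IsNilpotent x) ∨
    (∀ x : MonoidAlgebra k H₂, x.coeff.sum (fun _ r => r) = 0 → IsNilpotent x) := by
  have haug : ∀ (H : Subgroup G) (x : MonoidAlgebra k H),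
      aug k H x = x.coeff.sum (fun _ r => r) := by
    intro H x
    induction x using MonoidAlgebra.induction_linear with
    | zero => simp
    | add x y hx hy =>
      rw [map_add, hx, hy, MonoidAlgebra.coeff_add, Finsupp.sum_add_index']
      · intro _; rfl
      · intro _ _ _; rfl
    | single g r =>
      rw [aug_single, MonoidAlgebra.coeff_single, Finsupp.sum_single_index rfl]
  have hJ : AugLeJac k G := fun x hx => by
    rw [hG]
    exact mem_span_of_aug x hx
  have hd' : ∀ a ∈ H₁, a ∈ H₂ → a = 1 := by
    intro a h1 h2
    have h3 : a ∈ H₁ ⊓ H₂ := ⟨h1, h2⟩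
    rw [hd] at h3
    exact Subgroup.mem_bot.1 h3
  rcases nil_or_nil hJ (prodHom H₁ H₂ hc) (prodHom_injective H₁ H₂ hc hd') with h | h
  · exact Or.inl fun x hx => h x (by rw [haug, hx])
  · exact Or.inr fun x hx => h x (by rw [haug, hx])

end Pool.Agent.Results.MP_331e4f_al.CommutingSubgroups
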