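import Pool.Agent.Y803.GR.SpnC

/-!
MP_331e4f_al: Kaplansky's equivalence holds, for every field, for all groups which have a spinal
group over the `p`-ary tree as a section (for instance one of the Grigorchuk groups `G_ω`,
Grigorchuk's `p`-groups, a GGS-group or multi-GGS-group, a Gupta-Sidki group).

Idea.  Let `k` be infinite of characteristic `p`, and let `N_a` be the sum of the powers of the
rooted automorphism `a`.  Choose `X ∈ k[V]`, a linear combination of the sums `N_v` of the
multiples of `v`, such that for all `n` the sum over `x ≠ 0` of the constants `μ` in
`e_{n,x}(X) = μ N_a` is not zero.  For `d ≠ 0` the wreath recursion turns a right inverse `Y` of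
`1 - (d N_a + X)` into a right inverse `Y'` of `1 - (d' N_a + X')` in the group algebra of the spinal
group of the shifted sequence, with `X' = d ((1 - X)⁻¹ - 1)` of the same kind and `d' ≠ 0`, and the
support of `Y'` consists of `1` and of sections of elements of the support of `Y`.  Sections are
shorter, so after finitely many steps the support consists of rooted and directed automorphisms,
and a comparison of coefficients gives a contradiction.  Small fields: the condition `ω ⊆ J` passes
to algebraic extensions.
-/

set_option autoImplicit false

namespace Pool.Agent.Results.MP_331e4f_al.SpinalGroups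

open Pool.Agent.Y803.Spinal

universe u v w

/-- Let `p` be a prime, `V` a finite vector space over `F_p` and `e_{n,x} : V → F_p`, `n ∈ ℕ`,
`x ∈ F_p`, linear functionals such that for every `n` there is an `x ≠ 0` with `e_{n,x} ≠ 0`. Let
`GG e = ⟨a, V⟩` be the spinal group of the sequence, `S` a subgroup of a group `M` and
`f : S → GG e` a surjective homomorphism. Then for every field `k` both sides of Kaplansky's
equivalence for `k` and `M` are false: the augmentation ideal of `k[M]` does not lie in the
Jacobson radical, and `M` is not locally finite. -/
theorem result (k : Type u) [Field k] (M : Type w) [Group M] (p : ℕ) [Fact p.Prime]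
    (V : Type v) [AddCommGroup V] [Module (ZMod p) V] [Finite V]
    (e : ℕ → ZMod p → (V →ₗ[ZMod p] ZMod p)) (he : ∀ n, ∃ x, x ≠ 0 ∧ e n x ≠ 0) (S : Subgroup M)
    (f : S →* GG e) (hf : Function.Surjective f) :
    ¬ Ideal.span (Set.range (fun g : M => MonoidAlgebra.of k M g - 1)) ≤
      Ideal.jacobson (⊥ : Ideal (MonoidAlgebra k M)) ∧
    ¬ ∀ H : Subgroup M, H.FG → Finite H :=
  ⟨kaplansky_spinal k he S f hf, not_locally_finite he S f hf⟩

end Pool.Agent.Results.MP_331e4f_al.SpinalGroups
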